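import Pool.Agent.N728.QU.Def
import Pool.Agent.N364.QL.Box

/-!
# Project QU, part BOX
-/

set_option autoImplicit false

namespace Pool.Agent.N521.QU

open Finset Pool.Agent.N728.QL Pool.Agent.N728.QU Filter Topology
open Pool.Agent.N364.QL (rg_mem rg_abs lz_mem dz_le hq_one_le inner trivial_bound div_facts pow_half
  small_pow)

/-- The elements of a residue class in an interval. -/
theorem card_class (X p : ℕ) (e : ℤ) (hp : 0 < p) (hpX : p ≤ X) :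
    (((Icc (1 : ℤ) X).filter (fun x => (p : ℤ) ∣ x + e)).card : ℝ) ≤ 2 * X / p := by
  have h0 : (Icc (1 : ℤ) X).filter (fun x => (p : ℤ) ∣ x + e) =
      (Ioc (0 : ℤ) X).filter (fun x => x ≡ -e [ZMOD p]) := by
    ext x
    simp only [mem_filter, mem_Icc, mem_Ioc]
    have h1 : x ≡ -e [ZMOD p] ↔ (p : ℤ) ∣ x + e := by
      rw [Int.modEq_comm, Int.modEq_iff_dvd, sub_neg_eq_add]
    rw [h1]
    constructor
    · rintro ⟨⟨h2, h3⟩, h4⟩; exact ⟨⟨by omega, h3⟩, h4⟩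
    · rintro ⟨⟨h2, h3⟩, h4⟩; exact ⟨⟨by omega, h3⟩, h4⟩
  have hp' : (0 : ℤ) < p := by exact_mod_cast hp
  have h1 := Int.Ioc_filter_modEq_card (0 : ℤ) X hp' (-e)
  rw [h0]
  have hpr : (0 : ℝ) < p := by exact_mod_cast hp
  have hpX' : (p : ℝ) ≤ X := by exact_mod_cast hpX
  have hb : (1 : ℝ) ≤ X / p := by rw [le_div_iff₀ hpr]; linarith
  have h2 : (((Ioc (0 : ℤ) X).filter (fun x => x ≡ -e [ZMOD p])).card : ℤ) ≤
      ⌊((X : ℚ) / p)⌋ + 1 := by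
    rw [h1, max_le_iff]
    constructor
    · have h3 : (((X : ℤ) : ℚ) - ((-e : ℤ) : ℚ)) / ((p : ℤ) : ℚ) =
          (((0 : ℤ) : ℚ) - ((-e : ℤ) : ℚ)) / ((p : ℤ) : ℚ) + (X : ℚ) / p := by
        push_cast
        ring
      rw [h3]
      have h4 := Int.le_floor_add_floor ((((0 : ℤ) : ℚ) - ((-e : ℤ) : ℚ)) / ((p : ℤ) : ℚ))
        ((X : ℚ) / p)
      linarith
    · have : 0 ≤ ⌊((X : ℚ) / p)⌋ := Int.floor_nonneg.2 (by positivity)
      linarith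
  have h3 : ((⌊((X : ℚ) / p)⌋ : ℤ) : ℝ) ≤ (X : ℝ) / p := by
    have h4 : ((⌊((X : ℚ) / p)⌋ : ℤ) : ℚ) ≤ (X : ℚ) / p := Int.floor_le _
    have h5 : (((⌊((X : ℚ) / p)⌋ : ℤ) : ℚ) : ℝ) ≤ (((X : ℚ) / p : ℚ) : ℝ) := by exact_mod_cast h4
    push_cast at h5
    exact h5
  have h4 : (((Ioc (0 : ℤ) X).filter (fun x => x ≡ -e [ZMOD p])).card : ℝ) ≤
      ((⌊((X : ℚ) / p)⌋ : ℤ) : ℝ) + 1 := by exact_mod_cast h2
  calc (((Ioc (0 : ℤ) X).filter (fun x => x ≡ -e [ZMOD p])).card : ℝ)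
      ≤ (X : ℝ) / p + 1 := by linarith
    _ ≤ (X : ℝ) / p + X / p := by linarith
    _ = 2 * X / p := by ring

/-- A prime factor of `c` in `(z, z1]` divides one of the four first coordinates. -/
def Bd (c : ℤ) (z z1 A A' : ℕ) (x t r : ℤ) : Prop :=
  ∃ p : ℕ, p.Prime ∧ z < p ∧ p ≤ z1 ∧ (p : ℤ) ∣ c ∧ ∃ i, (p : ℤ) ∣ xs A A' x t r i

/-- the shifts of the first coordinate -/
def sh (A A' : ℤ) (t r : ℤ) : Fin 4 → ℤ := ![0, t * A, r * A', t * A + r * A']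

theorem xs_eq (A A' : ℤ) (x t r : ℤ) (i : Fin 4) : xs A A' x t r i = x + sh A A' t r i := by
  unfold xs sh
  fin_cases i <;> simp [add_assoc]

theorem card_sym (n : ℕ) (hn : 1 ≤ n) : ((Icc (-(n : ℤ)) n).card : ℝ) ≤ 3 * n := by
  rw [Int.card_Icc]
  have : ((n : ℤ) + 1 - -(n : ℤ)).toNat = 2 * n + 1 := by omega
  rw [this]
  push_cast
  have : (1 : ℝ) ≤ n := by exact_mod_cast hn
  linarith

open Classical in
/-- The number of the bad triples. -/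
theorem bad_count (c : ℤ) (z z1 A A' X R R' : ℕ) (hX : z1 ≤ X) (hR : 1 ≤ R) (hR' : 1 ≤ R')
    (hc : c ≠ 0) (σ : ℝ)
    (hT : ∑ p ∈ c.natAbs.primeFactors.filter (fun p => z < p), 1 / (p : ℝ) ≤ σ) :
    ∑ x ∈ Icc (1 : ℤ) X, ∑ t ∈ Icc (-(R : ℤ)) R, ∑ r ∈ Icc (-(R' : ℤ)) R',
      (if Bd c z z1 A A' x t r then (1 : ℝ) else 0) ≤ 72 * σ * ((X : ℝ) * R * R') := by
  set P := (c.natAbs.primeFactors.filter (fun p => z < p)).filter (fun p => p ≤ z1) with hP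
  have hpt : ∀ x t r : ℤ, (if Bd c z z1 A A' x t r then (1 : ℝ) else 0) ≤
      ∑ p ∈ P, ∑ i : Fin 4, (if (p : ℤ) ∣ x + sh A A' t r i then (1 : ℝ) else 0) := by
    intro x t r
    have hnn : ∀ p ∈ P, (0 : ℝ) ≤ ∑ i : Fin 4, (if (p : ℤ) ∣ x + sh A A' t r i then (1 : ℝ) else 0) :=
      fun p _ => sum_nonneg fun i _ => by split_ifs <;> norm_num
    split_ifs with hB
    · obtain ⟨p, hp, h1, h2, h3, i, h4⟩ := hB
      have hpP : p ∈ P := by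
        rw [hP, mem_filter, mem_filter, Nat.mem_primeFactors]
        exact ⟨⟨⟨hp, Int.natCast_dvd.1 h3, Int.natAbs_ne_zero.2 hc⟩, h1⟩, h2⟩
      rw [xs_eq] at h4
      calc (1 : ℝ) = (if (p : ℤ) ∣ x + sh A A' t r i then (1 : ℝ) else 0) := by rw [if_pos h4]
        _ ≤ ∑ i : Fin 4, (if (p : ℤ) ∣ x + sh A A' t r i then (1 : ℝ) else 0) :=
            single_le_sum (f := fun i => (if (p : ℤ) ∣ x + sh A A' t r i then (1 : ℝ) else 0))
              (fun i _ => by split_ifs <;> norm_num) (mem_univ i)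
        _ ≤ _ := single_le_sum (f := fun p : ℕ => ∑ i : Fin 4,
              (if (p : ℤ) ∣ x + sh A A' t r i then (1 : ℝ) else 0)) hnn hpP
    · exact sum_nonneg hnn
  have hx : ∀ t r : ℤ, ∑ x ∈ Icc (1 : ℤ) X, (if Bd c z z1 A A' x t r then (1 : ℝ) else 0) ≤
      8 * X * σ := by
    intro t r
    calc ∑ x ∈ Icc (1 : ℤ) X, (if Bd c z z1 A A' x t r then (1 : ℝ) else 0)
        ≤ ∑ x ∈ Icc (1 : ℤ) X, ∑ p ∈ P, ∑ i : Fin 4,
            (if (p : ℤ) ∣ x + sh A A' t r i then (1 : ℝ) else 0) := sum_le_sum fun x _ => hpt x t r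
      _ = ∑ p ∈ P, ∑ i : Fin 4, ∑ x ∈ Icc (1 : ℤ) X,
            (if (p : ℤ) ∣ x + sh A A' t r i then (1 : ℝ) else 0) := by
          rw [sum_comm]
          refine sum_congr rfl fun p _ => ?_
          rw [sum_comm]
      _ ≤ ∑ p ∈ P, ∑ _i : Fin 4, 2 * (X : ℝ) / p := by
          refine sum_le_sum fun p hp => sum_le_sum fun i _ => ?_
          rw [← sum_filter, sum_const, nsmul_eq_mul, mul_one]
          have h1 := mem_filter.1 hp
          have h2 : p.Prime := Nat.prime_of_mem_primeFactors (mem_filter.1 h1.1).1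
          exact card_class X p _ h2.pos (h1.2.trans hX)
      _ = 8 * X * ∑ p ∈ P, 1 / (p : ℝ) := by
          rw [mul_sum]
          refine sum_congr rfl fun p _ => ?_
          rw [sum_const, card_univ, Fintype.card_fin, nsmul_eq_mul]
          push_cast
          ring
      _ ≤ 8 * X * σ := by
          have h1 : ∑ p ∈ P, 1 / (p : ℝ) ≤
              ∑ p ∈ c.natAbs.primeFactors.filter (fun p => z < p), 1 / (p : ℝ) :=
            sum_le_sum_of_subset_of_nonneg (filter_subset _ _) fun p _ _ => by positivity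
          have h2 := h1.trans hT
          gcongr
  have hσ : 0 ≤ σ := le_trans (sum_nonneg fun p _ => by positivity) hT
  calc ∑ x ∈ Icc (1 : ℤ) X, ∑ t ∈ Icc (-(R : ℤ)) R, ∑ r ∈ Icc (-(R' : ℤ)) R',
      (if Bd c z z1 A A' x t r then (1 : ℝ) else 0)
      = ∑ t ∈ Icc (-(R : ℤ)) R, ∑ r ∈ Icc (-(R' : ℤ)) R', ∑ x ∈ Icc (1 : ℤ) X,
          (if Bd c z z1 A A' x t r then (1 : ℝ) else 0) := by
        rw [sum_comm]
        refine sum_congr rfl fun t _ => ?_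
        rw [sum_comm]
    _ ≤ ∑ t ∈ Icc (-(R : ℤ)) R, ∑ r ∈ Icc (-(R' : ℤ)) R', 8 * (X : ℝ) * σ :=
        sum_le_sum fun t _ => sum_le_sum fun r _ => hx t r
    _ = ((Icc (-(R : ℤ)) R).card : ℝ) * (((Icc (-(R' : ℤ)) R').card : ℝ) * (8 * (X : ℝ) * σ)) := by
        rw [sum_const, sum_const, nsmul_eq_mul, nsmul_eq_mul]
    _ ≤ (3 * R) * ((3 * R') * (8 * (X : ℝ) * σ)) := by
        have h1 := card_sym R hR
        have h2 := card_sym R' hR'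
        gcongr
    _ = 72 * σ * ((X : ℝ) * R * R') := by ring

theorem dz_abs (z z1 : ℕ) (n : ℤ) : |dz z z1 n| ≤ lz z1 n + lz z n := by
  unfold dz
  have h1 := lz_mem z n
  have h2 := lz_mem z1 n
  rw [abs_le]
  constructor <;> linarith [h1.1, h2.1]

/-- the passage to the majorant -/
theorem abs_le_maj (c : ℤ) (w y z z1 M : ℕ) (xi θ : Fin 4 → ℤ) (J1 J2 : ℤ) :
    |∑ s ∈ Ioc J1 J2, ∏ i, (rg w y (s + θ i) * dz z z1 (M * xi i * (s + θ i) + c))| ≤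
      ∑ s ∈ Ioc J1 J2, ∏ i, (rg w y (s + θ i) *
        (lz z1 (M * xi i * (s + θ i) + c) + lz z (M * xi i * (s + θ i) + c))) := by
  refine (abs_sum_le_sum_abs _ _).trans (sum_le_sum fun s _ => ?_)
  rw [abs_prod]
  refine prod_le_prod (fun i _ => abs_nonneg _) fun i _ => ?_
  rw [abs_mul, abs_of_nonneg (rg_mem w y _).1]
  exact mul_le_mul_of_nonneg_left (dz_abs z z1 _) (rg_mem w y _).1

open Classical in
/-- the main inequality -/
theorem core (c : ℤ) (w y z z1 M A A' X Y : ℕ) (C C' : ℤ) (R R' : ℕ)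
    (K1 K2 K3 Q Pw Pw' q0 L β : ℝ)
    (hy : 1 ≤ y) (hz : 1 ≤ z) (hR : 1 ≤ R) (hR' : 1 ≤ R') (hK1 : 0 ≤ K1) (hK2 : 0 ≤ K2)
    (hK3 : 0 ≤ K3) (hPw : 0 ≤ Pw) (hPw' : 0 ≤ Pw') (hq0 : 0 ≤ q0) (hL : 0 < L) (hβ : 0 ≤ β)
    (hFLB : ∀ (x θ : Fin 4 → ℤ) (J1 J2 : ℤ), J1 ≤ J2 → Dl c M x θ ≠ 0 →
      (∀ p : ℕ, p.Prime → z < p → p ≤ z1 → (p : ℤ) ∣ c → ∀ i, ¬ (p : ℤ) ∣ x i) →
      |∑ t ∈ Ioc J1 J2, ∏ i, (rg w y (t + θ i) * dz z z1 (M * x i * (t + θ i) + c))| ≤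
        K1 * (VW 0 y)⁻¹ ^ 4 * ((J2 : ℝ) - J1) *
          (hq y (Dl c M x θ) ^ 2 * q0 + hq y (Dl c M x θ) * (hq z (Dl c M x θ) - 1)) + Pw)
    (hFUB : ∀ (x θ : Fin 4 → ℤ) (J1 J2 : ℤ), J1 ≤ J2 → Dl c M x θ ≠ 0 →
      ∑ t ∈ Ioc J1 J2, ∏ i, (rg w y (t + θ i) *
        (lz z1 (M * x i * (t + θ i) + c) + lz z (M * x i * (t + θ i) + c))) ≤
        K3 * (VW 0 y)⁻¹ ^ 4 * ((J2 : ℝ) - J1) * hq y (Dl c M x θ) ^ 2 + Pw')
    (hQ : (VW 0 z)⁻¹ + (VW 0 z1)⁻¹ ≤ Q)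
    (hAy : (∑ x ∈ Icc (1 : ℤ) X, ∑ t ∈ Icc (-(R : ℤ)) R, ∑ r ∈ Icc (-(R' : ℤ)) R',
      (if Dl c M (xs A A' x t r) (ts C C' t r) = 0 then 0 else
        hq y (Dl c M (xs A A' x t r) (ts C C' t r)) ^ 4 - 1)) ≤ K2 / y * ((X : ℝ) * R * R'))
    (hAz : (∑ x ∈ Icc (1 : ℤ) X, ∑ t ∈ Icc (-(R : ℤ)) R, ∑ r ∈ Icc (-(R' : ℤ)) R',
      (if Dl c M (xs A A' x t r) (ts C C' t r) = 0 then 0 else
        hq z (Dl c M (xs A A' x t r) (ts C C' t r)) ^ 4 - 1)) ≤ K2 / z * ((X : ℝ) * R * R'))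
    (hA0 : (∑ x ∈ Icc (1 : ℤ) X, ∑ t ∈ Icc (-(R : ℤ)) R, ∑ r ∈ Icc (-(R' : ℤ)) R',
      (if Dl c M (xs A A' x t r) (ts C C' t r) = 0 then (1 : ℝ) else 0)) ≤ (X : ℝ) * R * R' / L)
    (hBd : (∑ x ∈ Icc (1 : ℤ) X, ∑ t ∈ Icc (-(R : ℤ)) R, ∑ r ∈ Icc (-(R' : ℤ)) R',
      (if Bd c z z1 A A' x t r then (1 : ℝ) else 0)) ≤ β * ((X : ℝ) * R * R')) :
    ∑ t ∈ Icc (-(R : ℤ)) R, ∑ r ∈ Icc (-(R' : ℤ)) R',
      |∑ x ∈ Icc (1 : ℤ) X, ∑ s ∈ Icc (1 : ℤ) Y, fB c w y z z1 X Y M x s *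
        fB c w y z z1 X Y M (x + t * A) (s + t * C) *
        fB c w y z z1 X Y M (x + r * A') (s + r * C') *
        fB c w y z z1 X Y M (x + t * A + r * A') (s + t * C + r * C')| ≤
      (Y * (Q ^ 4 / L + K1 * (VW 0 y)⁻¹ ^ 4 * ((9 + K2) * q0 + √((9 + K2) * (K2 / z))) +
        K3 * (VW 0 y)⁻¹ ^ 4 * √(β * (9 + K2))) + 9 * (Pw + Pw')) * ((X : ℝ) * R * R') := by
  set V : ℝ := (VW 0 y)⁻¹ with hV
  have hV0 : 0 < V := inv_pos.2 (Pool.Agent.N364.QL.VW_pos 0 y)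
  have hQ0 : 0 ≤ Q := le_trans (add_nonneg (inv_pos.2 (Pool.Agent.N364.QL.VW_pos 0 z)).le
    (inv_pos.2 (Pool.Agent.N364.QL.VW_pos 0 z1)).le) hQ
  set N : ℝ := (X : ℝ) * R * R' with hN
  have hN0 : 0 ≤ N := by positivity
  set D : ℤ → ℤ → ℤ → ℤ := fun x t r => Dl c M (xs A A' x t r) (ts C C' t r) with hD
  set e0 : ℤ → ℤ → ℤ → ℝ := fun x t r => if D x t r = 0 then 1 else 0 with he0
  set g : ℤ → ℤ → ℤ → ℝ := fun x t r => if D x t r = 0 then 0 else hq y (D x t r) with hg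
  set h : ℤ → ℤ → ℤ → ℝ := fun x t r => if D x t r = 0 then 0 else hq z (D x t r) - 1 with hh
  set bd : ℤ → ℤ → ℤ → ℝ := fun x t r => if Bd c z z1 A A' x t r then 1 else 0 with hbd
  have hg0 : ∀ x t r, 0 ≤ g x t r := by
    intro x t r
    simp only [hg]
    split_ifs
    · exact le_rfl
    · linarith [hq_one_le y (D x t r)]
  have hh0 : ∀ x t r, 0 ≤ h x t r := by
    intro x t r
    simp only [hh]
    split_ifs
    · exact le_rfl
    · linarith [hq_one_le z (D x t r)]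
  have he00 : ∀ x t r, 0 ≤ e0 x t r := by
    intro x t r
    simp only [he0]
    split_ifs <;> norm_num
  have hbd0 : ∀ x t r, 0 ≤ bd x t r := by
    intro x t r
    simp only [hbd]
    split_ifs <;> norm_num
  have hbd1 : ∀ x t r, bd x t r ≤ 1 := by
    intro x t r
    simp only [hbd]
    split_ifs <;> norm_num
  -- the bound for one triple
  have hpt : ∀ x t r : ℤ, |∑ s ∈ Icc (1 : ℤ) Y, fB c w y z z1 X Y M x s *
        fB c w y z z1 X Y M (x + t * A) (s + t * C) *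
        fB c w y z z1 X Y M (x + r * A') (s + r * C') *
        fB c w y z z1 X Y M (x + t * A + r * A') (s + t * C + r * C')| ≤
      Y * Q ^ 4 * e0 x t r + K1 * V ^ 4 * Y * (g x t r ^ 2 * q0 + g x t r * h x t r) +
        K3 * V ^ 4 * Y * (bd x t r * g x t r ^ 2) + (Pw + Pw') := by
    intro x t r
    obtain ⟨J1, J2, hJ, hJY, hle⟩ := inner c w y z z1 X Y M (xs A A' x t r) (ts C C' t r)
    have heq : ∑ s ∈ Icc (1 : ℤ) Y, fB c w y z z1 X Y M x s *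
        fB c w y z z1 X Y M (x + t * A) (s + t * C) *
        fB c w y z z1 X Y M (x + r * A') (s + r * C') *
        fB c w y z z1 X Y M (x + t * A + r * A') (s + t * C + r * C') =
        ∑ s ∈ Icc (1 : ℤ) Y, ∏ i, fB c w y z z1 X Y M (xs A A' x t r i) (s + ts C C' t r i) := by
      refine sum_congr rfl fun s _ => ?_
      rw [Fin.prod_univ_four]
      simp [xs, ts, add_assoc]
    rw [heq]
    have hJY' : ((J2 - J1 : ℤ) : ℝ) ≤ Y := by exact_mod_cast hJY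
    have hJ0 : 0 ≤ ((J2 : ℝ) - J1) := by
      have : (J1 : ℝ) ≤ J2 := by exact_mod_cast hJ
      linarith
    have h9 : ((J2 : ℝ) - J1) ≤ Y := by
      push_cast at hJY'
      exact hJY'
    have hgn := hg0 x t r
    have hhn := hh0 x t r
    have hbn := hbd0 x t r
    refine hle.trans ?_
    by_cases hD0 : D x t r = 0
    · have h1 : e0 x t r = 1 := by simp only [he0, hD0, if_true]
      have h2 : g x t r = 0 := by simp only [hg, hD0, if_true]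
      rw [h1, h2]
      have h3 := trivial_bound c w y z z1 M (Y : ℝ) (xs A A' x t r) (ts C C' t r) J1 J2 hJ hJY' Q hQ
      nlinarith
    · have h1 : e0 x t r = 0 := by simp only [he0, hD0, if_false]
      have h2 : g x t r = hq y (D x t r) := by simp only [hg, hD0, if_false]
      have h3 : h x t r = hq z (D x t r) - 1 := by simp only [hh, hD0, if_false]
      by_cases hB : Bd c z z1 A A' x t r
      · have hb1 : bd x t r = 1 := by simp only [hbd, hB, if_true]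
        have h4 := (abs_le_maj c w y z z1 M (xs A A' x t r) (ts C C' t r) J1 J2).trans
          (hFUB (xs A A' x t r) (ts C C' t r) J1 J2 hJ hD0)
        have h5 : K3 * V ^ 4 * ((J2 : ℝ) - J1) * hq y (D x t r) ^ 2 ≤
            K3 * V ^ 4 * Y * hq y (D x t r) ^ 2 := by gcongr
        have h6 : 0 ≤ K1 * V ^ 4 * Y * (g x t r ^ 2 * q0 + g x t r * h x t r) := by positivity
        rw [h1, hb1]
        rw [← h2] at h5
        have h7 : K3 * V ^ 4 * ((J2 : ℝ) - J1) * g x t r ^ 2 + Pw' =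
          K3 * V ^ 4 * ((J2 : ℝ) - J1) * hq y (D x t r) ^ 2 + Pw' := by rw [h2]
        have h8 := h4.trans_eq h7.symm
        linarith
      · have h4 := hFLB (xs A A' x t r) (ts C C' t r) J1 J2 hJ hD0
          (fun p hp h1 h2 h3 i h4 => hB ⟨p, hp, h1, h2, h3, i, h4⟩)
        have h5 : K1 * V ^ 4 * ((J2 : ℝ) - J1) * (hq y (D x t r) ^ 2 * q0 +
            hq y (D x t r) * (hq z (D x t r) - 1)) ≤
            K1 * V ^ 4 * Y * (hq y (D x t r) ^ 2 * q0 + hq y (D x t r) * (hq z (D x t r) - 1)) := by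
          have h6 : 0 ≤ hq y (D x t r) ^ 2 * q0 + hq y (D x t r) * (hq z (D x t r) - 1) := by
            have h7 := hgn
            have h8 := hhn
            rw [h2] at h7
            rw [h3] at h8
            positivity
          gcongr
        have h6 : 0 ≤ K3 * V ^ 4 * Y * (bd x t r * g x t r ^ 2) := by positivity
        rw [h1]
        have h7 : K1 * V ^ 4 * Y * (g x t r ^ 2 * q0 + g x t r * h x t r) =
          K1 * V ^ 4 * Y * (hq y (D x t r) ^ 2 * q0 + hq y (D x t r) * (hq z (D x t r) - 1)) := by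
          rw [h2, h3]
        rw [h7]
        linarith
  -- triple sums
  set T3 : Finset (ℤ × ℤ × ℤ) := Icc (1 : ℤ) X ×ˢ (Icc (-(R : ℤ)) R ×ˢ Icc (-(R' : ℤ)) R') with hT3
  have htri : ∀ f : ℤ → ℤ → ℤ → ℝ, ∑ x ∈ Icc (1 : ℤ) X, ∑ t ∈ Icc (-(R : ℤ)) R,
      ∑ r ∈ Icc (-(R' : ℤ)) R', f x t r = ∑ p ∈ T3, f p.1 p.2.1 p.2.2 := by
    intro f
    rw [hT3, sum_product]
    refine sum_congr rfl fun x _ => ?_
    rw [sum_product]
  have hcard : (T3.card : ℝ) ≤ 9 * N := by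
    rw [hT3, card_product, card_product]
    push_cast
    rw [Int.card_Icc]
    have h1 : ((X : ℤ) + 1 - 1).toNat = X := by omega
    rw [h1]
    have h2 := card_sym R hR
    have h3 := card_sym R' hR'
    calc (X : ℝ) * (((Icc (-(R : ℤ)) R).card : ℝ) * ((Icc (-(R' : ℤ)) R').card : ℝ))
        ≤ X * ((3 * R) * (3 * R')) := by gcongr
      _ = 9 * N := by rw [hN]; ring
  -- the sums
  have hy1 : K2 / y ≤ K2 := by
    apply div_le_self hK2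
    exact_mod_cast hy
  have hG4 : ∑ p ∈ T3, g p.1 p.2.1 p.2.2 ^ 4 ≤ (9 + K2) * N := by
    have h1 : ∀ x t r, g x t r ^ 4 ≤ (if D x t r = 0 then 0 else hq y (D x t r) ^ 4 - 1) + 1 := by
      intro x t r
      simp only [hg]
      split_ifs <;> norm_num
    calc ∑ p ∈ T3, g p.1 p.2.1 p.2.2 ^ 4
        ≤ ∑ p ∈ T3, ((if D p.1 p.2.1 p.2.2 = 0 then 0 else hq y (D p.1 p.2.1 p.2.2) ^ 4 - 1) + 1) :=
          sum_le_sum fun p _ => h1 _ _ _
      _ = (∑ p ∈ T3, (if D p.1 p.2.1 p.2.2 = 0 then 0 else hq y (D p.1 p.2.1 p.2.2) ^ 4 - 1)) +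
          T3.card := by
          rw [sum_add_distrib, sum_const, nsmul_eq_mul, mul_one]
      _ ≤ K2 / y * N + 9 * N := by
          refine add_le_add ?_ hcard
          rw [← htri fun x t r => if D x t r = 0 then 0 else hq y (D x t r) ^ 4 - 1]
          exact hAy
      _ ≤ (9 + K2) * N := by nlinarith
  have hG : ∑ p ∈ T3, g p.1 p.2.1 p.2.2 ^ 2 ≤ (9 + K2) * N := by
    refine (sum_le_sum fun p _ => ?_).trans hG4
    simp only [hg]
    split_ifs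
    · norm_num
    · exact pow_le_pow_right₀ (hq_one_le y _) (by norm_num)
  have hH : ∑ p ∈ T3, h p.1 p.2.1 p.2.2 ^ 2 ≤ K2 / z * N := by
    have h1 : ∀ x t r, h x t r ^ 2 ≤ (if D x t r = 0 then 0 else hq z (D x t r) ^ 4 - 1) := by
      intro x t r
      simp only [hh]
      split_ifs
      · norm_num
      · have h2 := hq_one_le z (D x t r)
        have h3 : hq z (D x t r) ^ 2 ≤ hq z (D x t r) ^ 4 :=
          pow_le_pow_right₀ h2 (by norm_num)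
        nlinarith
    refine (sum_le_sum fun p _ => h1 _ _ _).trans ?_
    rw [← htri fun x t r => if D x t r = 0 then 0 else hq z (D x t r) ^ 4 - 1]
    exact hAz
  have hE : ∑ p ∈ T3, e0 p.1 p.2.1 p.2.2 ≤ N / L := by
    rw [← htri e0]
    exact hA0
  have hBs : ∑ p ∈ T3, bd p.1 p.2.1 p.2.2 ≤ β * N := by
    rw [← htri bd]
    exact hBd
  have hGH : ∑ p ∈ T3, g p.1 p.2.1 p.2.2 * h p.1 p.2.1 p.2.2 ≤ √((9 + K2) * (K2 / z)) * N := by
    have h1 := Real.sum_mul_le_sqrt_mul_sqrt T3 (fun p => g p.1 p.2.1 p.2.2)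
      (fun p => h p.1 p.2.1 p.2.2)
    refine h1.trans ?_
    calc √(∑ p ∈ T3, g p.1 p.2.1 p.2.2 ^ 2) * √(∑ p ∈ T3, h p.1 p.2.1 p.2.2 ^ 2)
        ≤ √((9 + K2) * N) * √(K2 / z * N) := by gcongr
      _ = √(((9 + K2) * (K2 / z)) * N ^ 2) := by
          rw [← Real.sqrt_mul (by positivity)]
          congr 1
          ring
      _ = √((9 + K2) * (K2 / z)) * N := by
          rw [Real.sqrt_mul (by positivity), Real.sqrt_sq hN0]
  have hBG : ∑ p ∈ T3, bd p.1 p.2.1 p.2.2 * g p.1 p.2.1 p.2.2 ^ 2 ≤ √(β * (9 + K2)) * N := by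
    have h1 := Real.sum_mul_le_sqrt_mul_sqrt T3 (fun p => bd p.1 p.2.1 p.2.2)
      (fun p => g p.1 p.2.1 p.2.2 ^ 2)
    refine h1.trans ?_
    have h2 : ∑ p ∈ T3, bd p.1 p.2.1 p.2.2 ^ 2 ≤ β * N := by
      refine (sum_le_sum fun p _ => ?_).trans hBs
      have h3 := hbd0 p.1 p.2.1 p.2.2
      have h4 := hbd1 p.1 p.2.1 p.2.2
      nlinarith
    have h3 : ∑ p ∈ T3, (g p.1 p.2.1 p.2.2 ^ 2) ^ 2 ≤ (9 + K2) * N := by
      refine (sum_le_sum fun p _ => ?_).trans hG4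
      rw [← pow_mul]
    calc √(∑ p ∈ T3, bd p.1 p.2.1 p.2.2 ^ 2) * √(∑ p ∈ T3, (g p.1 p.2.1 p.2.2 ^ 2) ^ 2)
        ≤ √(β * N) * √((9 + K2) * N) := by gcongr
      _ = √((β * (9 + K2)) * N ^ 2) := by
          rw [← Real.sqrt_mul (by positivity)]
          congr 1
          ring
      _ = √(β * (9 + K2)) * N := by
          rw [Real.sqrt_mul (by positivity), Real.sqrt_sq hN0]
  -- assembly
  calc ∑ t ∈ Icc (-(R : ℤ)) R, ∑ r ∈ Icc (-(R' : ℤ)) R',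
      |∑ x ∈ Icc (1 : ℤ) X, ∑ s ∈ Icc (1 : ℤ) Y, fB c w y z z1 X Y M x s *
        fB c w y z z1 X Y M (x + t * A) (s + t * C) *
        fB c w y z z1 X Y M (x + r * A') (s + r * C') *
        fB c w y z z1 X Y M (x + t * A + r * A') (s + t * C + r * C')|
      ≤ ∑ t ∈ Icc (-(R : ℤ)) R, ∑ r ∈ Icc (-(R' : ℤ)) R', ∑ x ∈ Icc (1 : ℤ) X,
        (Y * Q ^ 4 * e0 x t r + K1 * V ^ 4 * Y * (g x t r ^ 2 * q0 + g x t r * h x t r) +
        K3 * V ^ 4 * Y * (bd x t r * g x t r ^ 2) + (Pw + Pw')) :=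
        sum_le_sum fun t _ => sum_le_sum fun r _ =>
          (abs_sum_le_sum_abs _ _).trans (sum_le_sum fun x _ => hpt x t r)
    _ = ∑ p ∈ T3, (Y * Q ^ 4 * e0 p.1 p.2.1 p.2.2 + K1 * V ^ 4 * Y *
          (g p.1 p.2.1 p.2.2 ^ 2 * q0 + g p.1 p.2.1 p.2.2 * h p.1 p.2.1 p.2.2) +
          K3 * V ^ 4 * Y * (bd p.1 p.2.1 p.2.2 * g p.1 p.2.1 p.2.2 ^ 2) + (Pw + Pw')) := by
        rw [← htri fun x t r =>
          Y * Q ^ 4 * e0 x t r + K1 * V ^ 4 * Y * (g x t r ^ 2 * q0 + g x t r * h x t r) +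
          K3 * V ^ 4 * Y * (bd x t r * g x t r ^ 2) + (Pw + Pw')]
        exact (sum_congr rfl fun t _ => sum_comm).trans sum_comm
    _ = Y * Q ^ 4 * (∑ p ∈ T3, e0 p.1 p.2.1 p.2.2) + K1 * V ^ 4 * Y *
          ((∑ p ∈ T3, g p.1 p.2.1 p.2.2 ^ 2) * q0 +
            ∑ p ∈ T3, g p.1 p.2.1 p.2.2 * h p.1 p.2.1 p.2.2) +
          K3 * V ^ 4 * Y * (∑ p ∈ T3, bd p.1 p.2.1 p.2.2 * g p.1 p.2.1 p.2.2 ^ 2) +
          T3.card * (Pw + Pw') := by
        rw [sum_add_distrib, sum_add_distrib, sum_add_distrib, sum_const, nsmul_eq_mul, ← mul_sum,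
          ← mul_sum, ← mul_sum, sum_add_distrib, ← sum_mul]
    _ ≤ Y * Q ^ 4 * (N / L) + K1 * V ^ 4 * Y *
          (((9 + K2) * N) * q0 + √((9 + K2) * (K2 / z)) * N) +
          K3 * V ^ 4 * Y * (√(β * (9 + K2)) * N) + (9 * N) * (Pw + Pw') := by
        gcongr
    _ = (Y * (Q ^ 4 / L + K1 * V ^ 4 * ((9 + K2) * q0 + √((9 + K2) * (K2 / z))) +
          K3 * V ^ 4 * √(β * (9 + K2))) + 9 * (Pw + Pw')) * N := by
        ring

/-- the conclusion of AVG for one value of the parameters -/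
def AvP (K : ℝ) (s M A A' : ℕ) (C C' : ℤ) (B : ℕ) : Prop :=
  ∀ (c : ℤ) (X R R' : ℕ), c ≠ 0 → c.natAbs ≤ B ^ 3 → B ≤ X ^ 4 → B ≤ R ^ 4 →
  B ≤ R' ^ 4 → X ≤ B ^ 2 → R ≤ B ^ 2 → R' ≤ B ^ 2 →
  (∑ x ∈ Icc (1 : ℤ) X, ∑ t ∈ Icc (-(R : ℤ)) R, ∑ r ∈ Icc (-(R' : ℤ)) R',
    (if Dl c M (xs A A' x t r) (ts C C' t r) = 0 then 0 else
      hq s (Dl c M (xs A A' x t r) (ts C C' t r)) ^ 4 - 1) ≤ K / s * ((X : ℝ) * R * R')) ∧
  (∑ x ∈ Icc (1 : ℤ) X, ∑ t ∈ Icc (-(R : ℤ)) R, ∑ r ∈ Icc (-(R' : ℤ)) R',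
    (if Dl c M (xs A A' x t r) (ts C C' t r) = 0 then (1 : ℝ) else 0) ≤ (X : ℝ) * R * R' / Real.log B ^ 10)

/-- the condition on the parameters -/
def OkP (s M A A' : ℕ) (C C' : ℤ) : Prop := 1 ≤ M ∧ 1 ≤ A ∧ 1 ≤ A' ∧ C ≠ 0 ∧ C' ≠ 0 ∧
  ∀ p : ℕ, p.Prime → s < p → ¬ p ∣ M * A * A' ∧ ¬ (p : ℤ) ∣ C * C'

theorem ev_avg (K : ℝ) (s M0 : ℕ)
    (h : ∀ (M A A' : ℕ) (C C' : ℤ), OkP s M A A' C C' →
      ∃ B0 : ℕ, ∀ B : ℕ, B0 ≤ B → AvP K s M A A' C C' B) :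
    ∀ᶠ B : ℕ in atTop, ∀ (M A A' : ℕ) (C C' : ℤ), M ≤ M0 → A ≤ M0 → A' ≤ M0 → C.natAbs ≤ M0 →
      C'.natAbs ≤ M0 → OkP s M A A' C C' → AvP K s M A A' C C' B := by
  classical
  have h1 := (Filter.eventually_all_finset (range (M0 + 1) ×ˢ (range (M0 + 1) ×ˢ (range (M0 + 1) ×ˢ
    (Icc (-(M0 : ℤ)) M0 ×ˢ Icc (-(M0 : ℤ)) M0)))) (l := (atTop : Filter ℕ))
    (p := fun i B => OkP s i.1 i.2.1 i.2.2.1 i.2.2.2.1 i.2.2.2.2 →
      AvP K s i.1 i.2.1 i.2.2.1 i.2.2.2.1 i.2.2.2.2 B)).2 (by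
    rintro ⟨M, A, A', C, C'⟩ _
    simp only
    by_cases hM : OkP s M A A' C C'
    swap
    · exact Filter.Eventually.of_forall fun B h => absurd h hM
    obtain ⟨B0, hB0⟩ := h M A A' C C' hM
    filter_upwards [Filter.eventually_ge_atTop B0] with B hB _
    exact hB0 B hB)
  filter_upwards [h1] with B hB M A A' C C' hM hA hA' hC hC' hok
  refine hB (M, A, A', C, C') ?_ hok
  rw [mem_product, mem_product, mem_product, mem_product, mem_range, mem_range, mem_range, mem_Icc,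
    mem_Icc]
  simp only
  refine ⟨by omega, by omega, by omega, ⟨by omega, by omega⟩, by omega, by omega⟩

theorem ev_z (K1 V K2 K3 ε : ℝ) (hε : 0 < ε) :
    ∀ᶠ z : ℕ in atTop, K1 * V ^ 4 * ((9 + K2) * (1 / (z : ℝ)) + √((9 + K2) * (K2 / z))) +
      K3 * V ^ 4 * √(72 * (1 / √(z : ℝ)) * (9 + K2)) ≤ ε / 2 := by
  have h1 : Tendsto (fun z : ℕ => 1 / (z : ℝ)) atTop (𝓝 0) := tendsto_const_div_atTop_nhds_zero_nat 1
  have h2 : Tendsto (fun z : ℕ => K2 / (z : ℝ)) atTop (𝓝 0) := tendsto_const_div_atTop_nhds_zero_nat K2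
  have h3 : Tendsto (fun z : ℕ => √((9 + K2) * (K2 / (z : ℝ)))) atTop (𝓝 0) := by
    have h4 := (h2.const_mul (9 + K2)).sqrt
    simpa using h4
  have h6 : Tendsto (fun z : ℕ => 1 / √(z : ℝ)) atTop (𝓝 0) := by
    have h7 : Tendsto (fun z : ℕ => √(z : ℝ)) atTop atTop :=
      Real.tendsto_sqrt_atTop.comp tendsto_natCast_atTop_atTop
    have h8 := h7.inv_tendsto_atTop
    refine h8.congr fun z => ?_
    rw [one_div]
    rfl
  have h7 : Tendsto (fun z : ℕ => √(72 * (1 / √(z : ℝ)) * (9 + K2))) atTop (𝓝 0) := by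
    have h8 := ((h6.const_mul 72).mul_const (9 + K2)).sqrt
    simpa using h8
  have h4 : Tendsto (fun z : ℕ => K1 * V ^ 4 * ((9 + K2) * (1 / (z : ℝ)) + √((9 + K2) * (K2 / z))) +
      K3 * V ^ 4 * √(72 * (1 / √(z : ℝ)) * (9 + K2))) atTop (𝓝 0) := by
    have h5 := (((h1.const_mul (9 + K2)).add h3).const_mul (K1 * V ^ 4)).add
      (h7.const_mul (K3 * V ^ 4))
    simpa using h5
  exact h4.eventually_le_const (by positivity)

theorem t_BOXu (h1 : S_FLBu) (h2 : S_FUBu) (h3 : S_AVGu) (h4 : S_MER) (s0 : ℕ) : S_BOXu s0 := by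
  classical
  obtain ⟨K1, hK1, hF⟩ := h1
  obtain ⟨K3, hK3, hU⟩ := h2
  obtain ⟨K2, hK2, hAv⟩ := h3
  obtain ⟨C0, hC0, -, hM⟩ := h4
  set K : ℕ := 8 * K1 * K1 + 8 * K1 * K3 + 8 * K1 + 4 + ⌈2 * K1 * C0 ^ 4 * (9 + K2)⌉₊ with hK
  have hK4 : 4 ≤ K := by omega
  have hK8 : 8 * K1 ≤ K := by
    rw [hK]
    have : 0 ≤ 8 * K1 * K1 := Nat.zero_le _
    omega
  have hK88 : 8 * K1 * K1 ≤ K := by
    rw [hK]
    omega
  have hK83 : 8 * K1 * K3 ≤ K := by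
    rw [hK]
    omega
  have hKC : 2 * K1 * C0 ^ 4 * (9 + K2) ≤ (K : ℝ) := by
    have h4 : ⌈2 * K1 * C0 ^ 4 * (9 + K2)⌉₊ ≤ K := by
      rw [hK]
      omega
    exact (Nat.le_ceil _).trans (Nat.cast_le.2 h4)
  refine ⟨K, by omega, ?_⟩
  intro k w y M0 hk hw hwy hy3 ε hε
  have hy0 : 2 ≤ y := by omega
  have hlogy : 1 ≤ Real.log y := by
    have h4 : Real.exp 1 ≤ y := by
      have h5 : (3 : ℝ) ≤ y := by exact_mod_cast hy3
      linarith [Real.exp_one_lt_d9]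
    rw [← Real.log_exp 1]
    exact Real.log_le_log (Real.exp_pos 1) h4
  set b := k / (8 * K1) with hb
  have hbK : K1 ≤ b := by
    rw [hb, Nat.le_div_iff_mul_le (by omega)]
    calc K1 * (8 * K1) = 8 * K1 * K1 := by ring
      _ ≤ k := hK88.trans hk
  have hbK3 : K3 ≤ b := by
    rw [hb, Nat.le_div_iff_mul_le (by omega)]
    calc K3 * (8 * K1) = 8 * K1 * K3 := by ring
      _ ≤ k := hK83.trans hk
  set V : ℝ := (VW 0 y)⁻¹ with hV
  have hV0 : 0 < V := inv_pos.2 (Pool.Agent.N364.QL.VW_pos 0 y)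
  have hVy : V ≤ C0 * Real.log y := (hM y hy0).2
  have hzev : ∀ᶠ z : ℕ in atTop, (K1 * V ^ 4 * ((9 + K2) * (1 / (z : ℝ)) + √((9 + K2) * (K2 / z))) +
      K3 * V ^ 4 * √(72 * (1 / √(z : ℝ)) * (9 + K2)) ≤ ε / 2) ∧ K1 ≤ z ∧ K3 ≤ z ∧ s0 ≤ z ∧ y ≤ z :=
    (ev_z K1 V K2 K3 ε hε).and ((eventually_ge_atTop K1).and ((eventually_ge_atTop K3).and
      ((eventually_ge_atTop s0).and (eventually_ge_atTop y))))
  obtain ⟨z0, hz0⟩ := eventually_atTop.1 hzev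
  refine ⟨z0, fun z hz => ?_⟩
  obtain ⟨hzε, hzK, hzK3, hzs, hyz⟩ := hz0 z hz
  have hz2 : 2 ≤ z := hy0.trans hyz
  have hAv' : ∀ s : ℕ, 2 ≤ s → ∀ (M A A' : ℕ) (C C' : ℤ), OkP s M A A' C C' →
      ∃ B0 : ℕ, ∀ B : ℕ, B0 ≤ B → AvP K2 s M A A' C C' B := by
    intro s hs M A A' C C' hok
    obtain ⟨g1, g2, g3, g4, g5, g6⟩ := hok
    exact hAv s M A A' C C' hs g1 g2 g3 g4 g5 g6
  have hlogB : Tendsto (fun B : ℕ => Real.log (B : ℝ)) atTop atTop :=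
    Real.tendsto_log_atTop.comp tendsto_natCast_atTop_atTop
  have hBev := (ev_avg K2 y M0 (hAv' y hy0)).and ((ev_avg K2 z M0 (hAv' z hz2)).and
    ((eventually_ge_atTop ((16 * M0 ^ 4) ^ 3)).and
    ((eventually_ge_atTop (⌈((36 / (ε / 2)) ^ 2) ^ 3⌉₊)).and
    ((hlogB.eventually_ge_atTop 1).and ((hlogB.eventually_ge_atTop (64 * C0 ^ 4 / ε)).and
      (eventually_ge_atTop 1))))))
  obtain ⟨B0, hB0⟩ := eventually_atTop.1 hBev
  refine ⟨B0, fun B hB => ?_⟩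
  obtain ⟨hBy, hBz, hBM, hBε, hBl, hBl2, hB1⟩ := hB0 B hB
  intro z1 X Y M A A' c C C' htame hcB hzz1 hz1k hMP hMM0 hAM hA'M hC0' hC'0 hC hC' hCC hX3 hX2 hY3 hY2
  obtain ⟨hc, htm⟩ := htame
  -- the parameters
  have hM1 : 1 ≤ M := Nat.pos_of_dvd_of_pos hMP (Pool.Agent.N364.QL.PP_pos w y)
  have hA1 : 1 ≤ A := Nat.pos_of_dvd_of_pos hAM hM1
  have hA'1 : 1 ≤ A' := Nat.pos_of_dvd_of_pos hA'M hM1
  have hAM0 : A ≤ M0 := (Nat.le_of_dvd hM1 hAM).trans hMM0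
  have hA'M0 : A' ≤ M0 := (Nat.le_of_dvd hM1 hA'M).trans hMM0
  obtain ⟨hR1, hR4⟩ := div_facts hA1 hAM0 hBM hX3
  obtain ⟨hR'1, hR'4⟩ := div_facts hA'1 hA'M0 hBM hX3
  have hX1 : 1 ≤ X := by
    by_contra hcon
    have : X = 0 := by omega
    rw [this] at hX3
    omega
  have hY1 : 1 ≤ Y := by
    by_contra hcon
    have : Y = 0 := by omega
    rw [this] at hY3
    omega
  have hX4 : B ≤ X ^ 4 := hX3.trans (Nat.pow_le_pow_right hX1 (by norm_num))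
  have hRX : X / A ≤ B ^ 2 := (Nat.div_le_self X A).trans hX2
  have hR'X : X / A' ≤ B ^ 2 := (Nat.div_le_self X A').trans hX2
  have hpr : ∀ s : ℕ, y ≤ s → OkP s M A A' C C' := by
    intro s hs
    refine ⟨hM1, hA1, hA'1, hC0', hC'0, ?_⟩
    intro p hp hsp
    constructor
    · intro hd
      have h4 : p ∣ M := by
        rcases (hp.dvd_mul.1 hd) with h5 | h5
        · rcases (hp.dvd_mul.1 h5) with h6 | h6
          · exact h6
          · exact h6.trans hAM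
        · exact h5.trans hA'M
      have h5 := Pool.Agent.N364.QL.dvd_PP hp (h4.trans hMP)
      omega
    · exact hCC p hp (lt_of_le_of_lt hs hsp)
  have hAy := hBy M A A' C C' hMM0 hAM0 hA'M0 hC hC' (hpr y le_rfl) c X (X / A) (X / A')
    hc hcB hX4 hR4 hR'4 hX2 hRX hR'X
  have hAz := hBz M A A' C C' hMM0 hAM0 hA'M0 hC hC' (hpr z hyz) c X (X / A) (X / A')
    hc hcB hX4 hR4 hR'4 hX2 hRX hR'X
  have hk1 : 1 ≤ k := by omega
  have hz1B : z1 ≤ B := (Nat.le_self_pow (by omega) z1).trans hz1k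
  have hz12 : 2 ≤ z1 := hz2.trans hzz1
  have hz1X : z1 ≤ X := by
    have h5 : z1 ^ 3 ≤ X ^ 3 :=
      (Nat.pow_le_pow_right (by omega) (by omega)).trans (hz1k.trans hX3)
    exact (Nat.pow_le_pow_iff_left (by norm_num)).1 h5
  have hlB : ∀ u : ℕ, 2 ≤ u → u ≤ B → (VW 0 u)⁻¹ ≤ C0 * Real.log B := by
    intro u hu huB
    refine ((hM u hu).2).trans ?_
    have h4 : Real.log u ≤ Real.log B := by
      apply Real.log_le_log
      · exact_mod_cast (by omega : 0 < u)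
      · exact_mod_cast huB
    gcongr
  have hQ : (VW 0 z)⁻¹ + (VW 0 z1)⁻¹ ≤ 2 * C0 * Real.log B := by
    have h4 := hlB z hz2 (hzz1.trans hz1B)
    have h5 := hlB z1 hz12 hz1B
    linarith
  have hbad := bad_count c z z1 A A' X (X / A) (X / A') hz1X hR1 hR'1 hc (1 / √(z : ℝ))
    (htm z hzs)
  have hcore := core c w y z z1 M A A' X Y C C' (X / A) (X / A') K1 K2 K3 (2 * C0 * Real.log B)
    ((z1 : ℝ) ^ (K1 * b)) ((z1 : ℝ) ^ K3) ((1 / 2 : ℝ) ^ b + 1 / z) (Real.log B ^ 10)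
    (72 * (1 / √(z : ℝ))) (by omega) (by omega) hR1 hR'1
    (Nat.cast_nonneg _) hK2.le (Nat.cast_nonneg _) (by positivity) (by positivity) (by positivity)
    (by positivity) (by positivity)
    (fun x θ J1 J2 hJ hD hp => hF c b w y z z1 M x θ J1 J2 hbK hzK hw hwy hyz hzz1 hMP hJ hD hp)
    (fun x θ J1 J2 hJ hD => hU c w y z z1 M x θ J1 J2 hzK3 hw hwy hyz hzz1 hMP hJ hD)
    hQ (by convert hAy.1) (by convert hAz.1) (by convert hAy.2) hbad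
  refine hcore.trans ?_
  -- the numerical part
  have hRr : ((X / A : ℕ) : ℝ) ≤ (X : ℝ) / A := Nat.cast_div_le
  have hRr' : ((X / A' : ℕ) : ℝ) ≤ (X : ℝ) / A' := Nat.cast_div_le
  have hprod : (X : ℝ) * ((X / A : ℕ) : ℝ) * ((X / A' : ℕ) : ℝ) ≤ X * (X / A) * (X / A') := by
    gcongr
  have hY0 : (1 : ℝ) ≤ Y := by exact_mod_cast hY1
  have hE0 : (0 : ℝ) ≤ K * Real.log y ^ K * (2 : ℝ) ^ (-((k : ℝ) / K)) := by positivity
  have hmain : (Y : ℝ) * ((2 * C0 * Real.log B) ^ 4 / Real.log B ^ 10 + K1 * V ^ 4 *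
      ((9 + K2) * ((1 / 2 : ℝ) ^ b + 1 / z) + √((9 + K2) * (K2 / z))) +
      K3 * V ^ 4 * √(72 * (1 / √(z : ℝ)) * (9 + K2))) +
      9 * ((z1 : ℝ) ^ (K1 * b) + (z1 : ℝ) ^ K3) ≤
      (K * Real.log y ^ K * (2 : ℝ) ^ (-((k : ℝ) / K)) + ε) * Y := by
    have ha : (2 * C0 * Real.log B) ^ 4 / Real.log B ^ 10 ≤ ε / 4 := by
      have hL0 : 0 < Real.log (B : ℝ) := by linarith
      have h4 : (2 * C0 * Real.log B) ^ 4 / Real.log B ^ 10 = 16 * C0 ^ 4 / Real.log B ^ 6 := by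
        field_simp
        ring
      rw [h4, div_le_iff₀ (by positivity)]
      have h5 : Real.log (B : ℝ) ≤ Real.log B ^ 6 := le_self_pow₀ hBl (by norm_num)
      rw [div_le_iff₀ hε] at hBl2
      nlinarith
    have hbb : K1 * V ^ 4 * ((9 + K2) * (1 / 2 : ℝ) ^ b) ≤
        K * Real.log y ^ K * (2 : ℝ) ^ (-((k : ℝ) / K)) := by
      have h4 := pow_half (k := k) hK1 hK8
      have h5 : V ^ 4 ≤ C0 ^ 4 * Real.log y ^ K := by
        calc V ^ 4 ≤ (C0 * Real.log y) ^ 4 := by gcongr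
          _ = C0 ^ 4 * Real.log y ^ 4 := by ring
          _ ≤ C0 ^ 4 * Real.log y ^ K := by
            gcongr
      calc K1 * V ^ 4 * ((9 + K2) * (1 / 2 : ℝ) ^ b)
          ≤ K1 * (C0 ^ 4 * Real.log y ^ K) * ((9 + K2) * (2 * (2 : ℝ) ^ (-((k : ℝ) / K)))) := by
            gcongr
        _ = (2 * K1 * C0 ^ 4 * (9 + K2)) * Real.log y ^ K * (2 : ℝ) ^ (-((k : ℝ) / K)) := by ring
        _ ≤ K * Real.log y ^ K * (2 : ℝ) ^ (-((k : ℝ) / K)) := by gcongr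
    have hd : 9 * (z1 : ℝ) ^ (K1 * b) ≤ (ε / 2) / 4 * Y := by
      refine small_pow (by positivity) hY0 ?_ ?_
      · have h4 : ((36 / (ε / 2)) ^ 2) ^ 3 ≤ (Y : ℝ) ^ 3 := by
          refine (Nat.le_ceil _).trans ?_
          exact_mod_cast hBε.trans hY3
        exact (pow_le_pow_iff_left₀ (by positivity) (by positivity) (by norm_num)).1 h4
      · have h4 : (z1 ^ (K1 * b)) ^ 8 ≤ Y ^ 3 := by
          rw [← pow_mul]
          refine (Nat.pow_le_pow_right (by omega) ?_).trans (hz1k.trans hY3)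
          calc K1 * b * 8 = k / (8 * K1) * (8 * K1) := by rw [← hb]; ring
            _ ≤ k := Nat.div_mul_le_self _ _
        exact_mod_cast h4
    have hd' : (z1 : ℝ) ^ K3 ≤ (z1 : ℝ) ^ (K1 * b) := by
      have h5 : (1 : ℝ) ≤ z1 := by exact_mod_cast (by omega : 1 ≤ z1)
      refine pow_le_pow_right₀ h5 (hbK3.trans ?_)
      exact Nat.le_mul_of_pos_left b (by omega)
    calc (Y : ℝ) * ((2 * C0 * Real.log B) ^ 4 / Real.log B ^ 10 + K1 * V ^ 4 *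
        ((9 + K2) * ((1 / 2 : ℝ) ^ b + 1 / z) + √((9 + K2) * (K2 / z))) +
        K3 * V ^ 4 * √(72 * (1 / √(z : ℝ)) * (9 + K2))) +
        9 * ((z1 : ℝ) ^ (K1 * b) + (z1 : ℝ) ^ K3)
        = Y * ((2 * C0 * Real.log B) ^ 4 / Real.log B ^ 10 + K1 * V ^ 4 *
          ((9 + K2) * (1 / 2 : ℝ) ^ b) + (K1 * V ^ 4 * ((9 + K2) * (1 / (z : ℝ)) +
            √((9 + K2) * (K2 / z))) + K3 * V ^ 4 * √(72 * (1 / √(z : ℝ)) * (9 + K2)))) +
          (9 * (z1 : ℝ) ^ (K1 * b) + 9 * (z1 : ℝ) ^ K3) := by ring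
      _ ≤ Y * (ε / 4 + K * Real.log y ^ K * (2 : ℝ) ^ (-((k : ℝ) / K)) + ε / 2) +
          ((ε / 2) / 4 * Y + (ε / 2) / 4 * Y) := by
          have h6 : 9 * (z1 : ℝ) ^ K3 ≤ (ε / 2) / 4 * Y := by linarith
          gcongr
      _ = _ := by ring
  calc ((Y : ℝ) * ((2 * C0 * Real.log B) ^ 4 / Real.log B ^ 10 + K1 * V ^ 4 *
      ((9 + K2) * ((1 / 2 : ℝ) ^ b + 1 / z) + √((9 + K2) * (K2 / z))) +
      K3 * V ^ 4 * √(72 * (1 / √(z : ℝ)) * (9 + K2))) +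
      9 * ((z1 : ℝ) ^ (K1 * b) + (z1 : ℝ) ^ K3)) *
        ((X : ℝ) * ((X / A : ℕ) : ℝ) * ((X / A' : ℕ) : ℝ))
      ≤ ((K * Real.log y ^ K * (2 : ℝ) ^ (-((k : ℝ) / K)) + ε) * Y) *
        (X * (X / A) * (X / A')) := by gcongr
    _ = _ := by ring

end Pool.Agent.N521.QU
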